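import Pool.Agent.H295R2.SI.Fin
import Pool.Agent.H370R2.DirGood

/-!
# Distinct zeros of Dirichlet L-functions in every short interval

Unconditionally, for every modulus `q ≥ 1`, every primitive Dirichlet character `χ` modulo `q`,
every fixed `0 < h ≤ 1` and `ε > 0`, all large `T` and all `T ^ h ≤ H ≤ T`,
`N_d(T, T + H) ≥ ((3 - c(h))/2 - ε) N(T, T + H)`, with
`c(h) = h/2 + cot(h/√2)/√2 ≤ 1/h + h/3`, `c(1) = c_MT⁻¹`.  In particular the Montgomery-Taylor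
proportion `(3 - c_MT⁻¹)/2 - ε` holds in every interval `(T, T + H]` with `T ^ (1 - δ) ≤ H ≤ T`.
-/

open Filter Topology

namespace Pool.Agent.Results.MP_f259ea_nt.EveryShort

/-- the nontrivial zeros of `L(s, χ)` with ordinate in `(T₁, T₂]` -/
def zeros {q : ℕ} [NeZero q] (χ : DirichletCharacter ℂ q) (T₁ T₂ : ℝ) : Set ℂ :=
  {s : ℂ | DirichletCharacter.LFunction χ s = 0 ∧ 0 < s.re ∧ s.re < 1 ∧ T₁ < s.im ∧ s.im ≤ T₂}

/-- the number of nontrivial zeros with ordinate in `(T₁, T₂]`, counted with multiplicity -/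
noncomputable def N {q : ℕ} [NeZero q] (χ : DirichletCharacter ℂ q) (T₁ T₂ : ℝ) : ℕ :=
  ∑ᶠ s ∈ zeros χ T₁ T₂, analyticOrderNatAt (DirichletCharacter.LFunction χ) s

/-- the number of distinct nontrivial zeros with ordinate in `(T₁, T₂]` -/
noncomputable def Nd {q : ℕ} [NeZero q] (χ : DirichletCharacter ℂ q) (T₁ T₂ : ℝ) : ℕ :=
  (zeros χ T₁ T₂).ncard

/-- the constant `c(h) = h/2 + cot(h/√2)/√2`; `c(1) = c_MT⁻¹` -/
noncomputable def c (h : ℝ) : ℝ := h / 2 + Real.cot (h / Real.sqrt 2) / Real.sqrt 2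

theorem zeros_eq {q : ℕ} [NeZero q] (χ : DirichletCharacter ℂ q) (T₁ T₂ : ℝ) :
    zeros χ T₁ T₂ = H370.zset (DirichletCharacter.LFunction χ) T₁ T₂ := by
  ext s
  simp only [zeros, H370.zset, Set.mem_ofPred_eq]
  tauto

/-- the sets of zeros that are counted are finite -/
theorem zeros_finite {q : ℕ} [NeZero q] (χ : DirichletCharacter ℂ q) (hχ : χ.IsPrimitive)
    (T₁ T₂ : ℝ) (h : 0 < T₁) : (zeros χ T₁ T₂).Finite := by
  rw [zeros_eq]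
  exact H370.zset_finite' (H370.good_dirichlet χ hχ) T₁ T₂ h

theorem N_eq {q : ℕ} [NeZero q] (χ : DirichletCharacter ℂ q) (T₁ T₂ : ℝ) :
    N χ T₁ T₂ = H370.NN (DirichletCharacter.LFunction χ) T₁ T₂ := by
  unfold N H370.NN H370.mult
  rw [zeros_eq]

theorem Nd_eq {q : ℕ} [NeZero q] (χ : DirichletCharacter ℂ q) (T₁ T₂ : ℝ) :
    Nd χ T₁ T₂ = H370.Nd (DirichletCharacter.LFunction χ) T₁ T₂ := by
  unfold Nd H370.Nd
  rw [zeros_eq]

theorem short {q : ℕ} [NeZero q] (χ : DirichletCharacter ℂ q) (hχ : χ.IsPrimitive)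
    (h ε : ℝ) (h0 : 0 < h) (h1 : h ≤ 1) (hε : 0 < ε) :
    ∃ T₀ : ℝ, ∀ T : ℝ, T₀ ≤ T → ∀ H : ℝ, T ^ h ≤ H → H ≤ T →
      ((3 - c h) / 2 - ε) * (N χ T (T + H) : ℝ) ≤ (Nd χ T (T + H) : ℝ) := by
  obtain ⟨T0, hT1, hT0⟩ := H295SI.mainShort _ (H370.good_dirichlet χ hχ) h ε h0 h1 hε
  refine ⟨T0, fun T hT H hH1 hH2 => ?_⟩
  rw [N_eq, Nd_eq]
  exact (hT0 T hT H hH1 hH2).2

theorem c_cont : ContinuousAt c 1 := by
  unfold c
  have hs : (0 : ℝ) < Real.sqrt 2 := by positivity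
  have hs1 : 1 < Real.sqrt 2 := Real.one_lt_sqrt_two
  have hpi := Real.pi_gt_three
  have hsin : Real.sin (1 / Real.sqrt 2) ≠ 0 := by
    apply ne_of_gt
    apply Real.sin_pos_of_pos_of_lt_pi (by positivity)
    have : 1 / Real.sqrt 2 ≤ 1 := by
      rw [div_le_one hs]; exact hs1.le
    linarith
  have h3 : (fun h : ℝ => h / 2 + Real.cot (h / Real.sqrt 2) / Real.sqrt 2) =
      fun h : ℝ => h / 2 + (Real.cos (h / Real.sqrt 2) / Real.sin (h / Real.sqrt 2)) /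
        Real.sqrt 2 := by
    funext h
    rw [Real.cot_eq_cos_div_sin]
  rw [h3]
  have h1 : ContinuousAt (fun h : ℝ => Real.cos (h / Real.sqrt 2)) 1 := by fun_prop
  have h2 : ContinuousAt (fun h : ℝ => Real.sin (h / Real.sqrt 2)) 1 := by fun_prop
  have h4 : ContinuousAt (fun h : ℝ => h / 2) 1 := by fun_prop
  exact h4.add ((h1.div h2 hsin).div_const _)

theorem result :
    (∀ (q : ℕ) [NeZero q] (χ : DirichletCharacter ℂ q), χ.IsPrimitive →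
      (∀ h ε : ℝ, 0 < h → h ≤ 1 → 0 < ε →
        ∃ T₀ : ℝ, ∀ T : ℝ, T₀ ≤ T → ∀ H : ℝ, T ^ h ≤ H → H ≤ T →
          ((3 - c h) / 2 - ε) * (N χ T (T + H) : ℝ) ≤ (Nd χ T (T + H) : ℝ)) ∧
      (∀ ε : ℝ, 0 < ε → ∃ δ : ℝ, 0 < δ ∧ δ < 1 ∧
        ∃ T₀ : ℝ, ∀ T : ℝ, T₀ ≤ T → ∀ H : ℝ, T ^ (1 - δ) ≤ H → H ≤ T →
          ((3 - c 1) / 2 - ε) * (N χ T (T + H) : ℝ) ≤ (Nd χ T (T + H) : ℝ))) ∧
    ∀ h : ℝ, 0 < h → h ≤ 1 → c h ≤ 1 / h + h / 3 := by
  refine ⟨fun q _ χ hχ => ⟨short χ hχ, fun ε hε => ?_⟩, H295SI.cc_le⟩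
  obtain ⟨r, hr, hrc⟩ := Metric.continuousAt_iff.mp c_cont (ε / 2) (by positivity)
  refine ⟨min (r / 2) (1 / 2), by positivity, (min_le_right _ _).trans_lt (by norm_num), ?_⟩
  set δ := min (r / 2) (1 / 2) with hδ
  have hδ0 : 0 < δ := by positivity
  have hδ1 : δ ≤ r / 2 := min_le_left _ _
  have hδ2 : δ ≤ 1 / 2 := min_le_right _ _
  have hd : dist (1 - δ) 1 < r := by
    rw [Real.dist_eq]
    have : (1 - δ - 1 : ℝ) = -δ := by ring
    rw [this, abs_neg, abs_of_pos hδ0]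
    linarith
  have hc := hrc hd
  rw [Real.dist_eq, abs_lt] at hc
  obtain ⟨T0, hT0⟩ := short χ hχ (1 - δ) (ε / 2) (by linarith) (by linarith) (by linarith)
  refine ⟨T0, fun T hT H hH1 hH2 => ?_⟩
  refine le_trans ?_ (hT0 T hT H hH1 hH2)
  apply mul_le_mul_of_nonneg_right _ (Nat.cast_nonneg _)
  linarith [hc.2]

end Pool.Agent.Results.MP_f259ea_nt.EveryShort
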